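import Pool.Agent.SF.Model

/-! Function fields generated by function fields over smaller constant fields. -/

set_option autoImplicit false
set_option linter.all false
set_option linter.overlappingInstances false

open Module FF Polynomial IntermediateField

namespace SF

theorem mem_of_gen {F L k K : Type*} [Field F] [Field L] [Field k] [Field K] [Algebra F L]
    [Algebra k K] (a : F →+* k) (b : L →+* K)
    (hab : ∀ c, b (algebraMap F L c) = algebraMap k K (a c)) (s : Set L) (T : IntermediateField k K)
    (hs : ∀ l ∈ s, b l ∈ T) (l : L) (hl : l ∈ IntermediateField.adjoin F s) : b l ∈ T := by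
  let T' : IntermediateField F L := Subfield.toIntermediateField (T.toSubfield.comap b) (by
    intro c
    change b (algebraMap F L c) ∈ T
    rw [hab]
    exact T.algebraMap_mem _)
  have h1 : IntermediateField.adjoin F s ≤ T' := by
    rw [IntermediateField.adjoin_le_iff]
    intro l hl
    exact hs l hl
  exact h1 hl

theorem isFF_of_gen {F L k K : Type*} [Field F] [Field L] [Field k] [Field K] [Algebra F L]
    [Algebra k K] [IsFF F L] (a : F →+* k) (b : L →+* K)
    (hab : ∀ c, b (algebraMap F L c) = algebraMap k K (a c))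
    (htr : ∀ ξ : L, Transcendental F ξ → Transcendental k (b ξ))
    (hgen : IntermediateField.adjoin k (Set.range b) = ⊤) : IsFF k K := by
  classical
  obtain ⟨ξ, hξ⟩ := IsFF.exists_transcendental (k := F) (K := L)
  have hb := htr ξ hξ
  have hess : Algebra.EssFiniteType k K := by
    have h0 := (inferInstance : IsFF F L).ess
    obtain ⟨s, hs⟩ := IntermediateField.fg_top F L
    rw [← IntermediateField.fg_top_iff]
    refine ⟨s.image b, ?_⟩
    rw [eq_top_iff, ← hgen, IntermediateField.adjoin_le_iff]
    rintro _ ⟨l, rfl⟩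
    apply mem_of_gen a b hab (s : Set L)
    · intro l hl
      apply IntermediateField.subset_adjoin
      simp only [Finset.coe_image]
      exact ⟨l, hl, rfl⟩
    · rw [hs]; trivial
  have halg : Algebra.IsAlgebraic k⟮b ξ⟯ K := by
    have h0 := IsFF.isAlgebraic hξ
    have h1 : ∀ l : L, IsAlgebraic k⟮b ξ⟯ (b l) := by
      intro l
      obtain ⟨p, hp0, hp⟩ := h0.isAlgebraic l
      have hmem : ∀ x ∈ F⟮ξ⟯, b x ∈ k⟮b ξ⟯ := by
        intro x hx
        apply mem_of_gen a b hab {ξ} _ _ x hx
        intro l hl
        rw [Set.mem_singleton_iff.1 hl]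
        exact IntermediateField.mem_adjoin_simple_self k (b ξ)
      let ρ : F⟮ξ⟯ →+* k⟮b ξ⟯ := RingHom.codRestrict (b.comp (algebraMap F⟮ξ⟯ L)) k⟮b ξ⟯
        (fun x => hmem x x.2)
      refine ⟨p.map ρ, (Polynomial.map_ne_zero_iff ρ.injective).2 hp0, ?_⟩
      rw [aeval_def, eval₂_map]
      have h2 : (algebraMap k⟮b ξ⟯ K).comp ρ = b.comp (algebraMap F⟮ξ⟯ L) := by
        ext x; rfl
      rw [h2, ← Polynomial.hom_eval₂]
      rw [aeval_def] at hp
      rw [hp, map_zero]
    let A := (algebraicClosure k⟮b ξ⟯ K).restrictScalars k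
    have h2 : IntermediateField.adjoin k (Set.range b) ≤ A := by
      rw [IntermediateField.adjoin_le_iff]
      rintro _ ⟨l, rfl⟩
      exact mem_algebraicClosure_iff.2 (h1 l)
    rw [hgen] at h2
    constructor
    intro x
    exact mem_algebraicClosure_iff.1 (h2 (trivial : x ∈ (⊤ : IntermediateField k K)))
  have hfin : FiniteDimensional k⟮b ξ⟯ K := by
    have h3 : Algebra.EssFiniteType k⟮b ξ⟯ K := Algebra.EssFiniteType.of_comp k k⟮b ξ⟯ K
    obtain ⟨s, hs⟩ := IntermediateField.fg_top k⟮b ξ⟯ K
    have h5 : FiniteDimensional k⟮b ξ⟯ (IntermediateField.adjoin k⟮b ξ⟯ (s : Set K)) :=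
      IntermediateField.finiteDimensional_adjoin (fun x _ => (halg.isAlgebraic x).isIntegral)
    rw [hs] at h5
    exact IntermediateField.topEquiv.toLinearEquiv.finiteDimensional
  exact IsFF.of_finite hb hfin

section
variable {F Ω L M : Type} [Field F] [Field Ω] [Algebra F Ω] [Field L] [Algebra F L]
    [Field M] [Algebra Ω M] [Algebra L M]

theorem Model.transcendental970 (m : Model F Ω L M) {ξ : L} (hξ : Transcendental F ξ) :
    Transcendental Ω (algebraMap L M ξ) := by
  have h1 : LinearIndependent F (fun i : ℕ => ξ ^ i) := by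
    rw [linearIndependent_iff']
    intro s g hg i hi
    have h2 : aeval ξ (∑ i ∈ s, monomial i (g i)) = 0 := by
      rw [map_sum, ← hg]
      apply Finset.sum_congr rfl
      intro j _
      rw [aeval_monomial, Algebra.smul_def]
    have h3 := (transcendental_iff.1 hξ) _ h2
    have h4 := congrArg (fun q : Polynomial F => q.coeff i) h3
    simp only [finsetSum_coeff, coeff_monomial, coeff_zero] at h4
    rw [Finset.sum_ite_eq'] at h4
    simpa [hi] using h4
  have h2 := m.indep _ h1
  rw [transcendental_iff]
  intro p hp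
  rw [aeval_eq_sum_range] at hp
  have h3 := (linearIndependent_iff'.1 h2) (Finset.range (p.natDegree + 1)) (fun i => p.coeff i) (by
    rw [← hp]
    apply Finset.sum_congr rfl
    intro j _
    rw [map_pow])
  ext i
  by_cases hi : i ≤ p.natDegree
  · simpa using h3 i (Finset.mem_range.2 (Nat.lt_succ_of_le hi))
  · simpa using coeff_eq_zero_of_natDegree_lt (by lia)

theorem Model.adjoin_eq_top (m : Model F Ω L M) :
    IntermediateField.adjoin Ω (Set.range (algebraMap L M)) = ⊤ := by
  have h1 : ∀ p ∈ Submodule.span Ω (Set.range (algebraMap L M)),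
      p ∈ IntermediateField.adjoin Ω (Set.range (algebraMap L M)) := by
    intro p hp
    have : Submodule.span Ω (Set.range (algebraMap L M)) ≤
        (IntermediateField.adjoin Ω (Set.range (algebraMap L M))).toSubalgebra.toSubmodule := by
      rw [Submodule.span_le]
      exact IntermediateField.subset_adjoin _ _
    exact this hp
  rw [eq_top_iff]
  intro f _
  obtain ⟨p, q, hp, hq, _, rfl⟩ := m.frac f
  exact div_mem (h1 p hp) (h1 q hq)

theorem Model.isFF [IsFF F L] (m : Model F Ω L M) : IsFF Ω M :=
  isFF_of_gen (algebraMap F Ω) (algebraMap L M) (fun c => (m.compat c).symm)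
    (fun ξ hξ => m.transcendental970 hξ) m.adjoin_eq_top

end

end SF
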