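import Pool.Agent.Helper970.D5.Reg
import Pool.Agent.Helper970.D5.GenFF

/-! Change of the base field of a model. -/

set_option autoImplicit false
set_option linter.all false
set_option linter.overlappingInstances false

open Module FF Polynomial IntermediateField

namespace SF

theorem model_base_change {F Ω L M : Type} [Field F] [Field Ω] [Algebra F Ω] [Field L] [Algebra F L]
    [Field M] [Algebra Ω M] [Algebra L M] [IsAlgClosed Ω] [CharZero Ω] [IsFF F L] (m : Model F Ω L M)
    (E : Type) [Field E] [Algebra F E] [Algebra E Ω] [IsScalarTower F E Ω] :
    ∃ (LE : Type) (_ : Field LE) (_ : Algebra E LE) (_ : Algebra L LE) (_ : Algebra LE M)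
      (m' : Model E Ω LE M), IsFF E LE ∧
      (∀ l : L, algebraMap LE M (algebraMap L LE l) = algebraMap L M l) ∧
      (∀ c : F, algebraMap E LE (algebraMap F E c) = algebraMap L LE (algebraMap F L c)) ∧
      (∀ σ : Ω ≃ₐ[E] Ω, ∀ f : M, m'.act σ f = m.act (σ.restrictScalars F) f) := by
  letI : Algebra E M := ((algebraMap Ω M).comp (algebraMap E Ω)).toAlgebra
  let K : IntermediateField E M := IntermediateField.adjoin E (Set.range (algebraMap L M))
  letI : Algebra L K := (RingHom.codRestrict (algebraMap L M) K
    (fun l => IntermediateField.subset_adjoin _ _ ⟨l, rfl⟩)).toAlgebra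
  have hLK : ∀ l : L, algebraMap K M (algebraMap L K l) = algebraMap L M l := fun l => rfl
  have hFK : ∀ c : F, algebraMap E K (algebraMap F E c) = algebraMap L K (algebraMap F L c) := by
    intro c
    apply (algebraMap K M).injective
    change algebraMap Ω M (algebraMap E Ω (algebraMap F E c)) = algebraMap L M (algebraMap F L c)
    rw [← IsScalarTower.algebraMap_apply F E Ω, m.compat]
  have hfix : ∀ (σ : Ω ≃ₐ[E] Ω) (l : K), m.act (σ.restrictScalars F) (algebraMap K M l) =
      algebraMap K M l := by
    intro σ l
    let T' : IntermediateField E M := Subfield.toIntermediateField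
      (RingHom.eqLocusField (m.act (σ.restrictScalars F)).toRingHom (RingHom.id M)) (by
        intro c
        change m.act (σ.restrictScalars F) (algebraMap Ω M (algebraMap E Ω c)) =
          algebraMap Ω M (algebraMap E Ω c)
        rw [m.act_const]
        congr 1
        exact σ.commutes c)
    have h1 : K ≤ T' := by
      rw [IntermediateField.adjoin_le_iff]
      rintro _ ⟨l, rfl⟩
      exact m.act_L _ l
    exact h1 l.2
  let m' : Model E Ω K M :=
    { compat := fun c => rfl
      act := 
        { toFun := fun σ => m.act (σ.restrictScalars F)
          map_one' := by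
            rw [← map_one m.act]; rfl
          map_mul' := by
            intro σ τ
            rw [← map_mul]; rfl }
      act_const := fun σ c => m.act_const _ c
      act_L := hfix
      indep := by
        intro ι v hv
        apply indep_of_fixed (E := E) (fun σ => (m.act (σ.restrictScalars F)).toRingHom)
        · intro σ c
          exact m.act_const _ c
        · intro σ i
          exact hfix σ (v i)
        · intro s g hg i hi
          apply (linearIndependent_iff'.1 hv) s g _ i hi
          apply (algebraMap K M).injective
          rw [map_zero, ← hg, map_sum]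
          apply Finset.sum_congr rfl
          intro j _
          rw [Algebra.smul_def, map_mul]
          rfl
      frac := by
        intro f
        obtain ⟨p, q, hp, hq, hq0, hpq⟩ := m.frac f
        have h1 : Submodule.span Ω (Set.range (algebraMap L M)) ≤
            Submodule.span Ω (Set.range (algebraMap K M)) := by
          apply Submodule.span_mono
          rintro _ ⟨l, rfl⟩
          exact ⟨algebraMap L K l, rfl⟩
        exact ⟨p, q, h1 hp, h1 hq, hq0, hpq⟩ }
  refine ⟨K, inferInstance, inferInstance, inferInstance, inferInstance, m', ?_, hLK, hFK,
    fun σ f => rfl⟩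
  apply isFF_of_gen (F := F) (L := L) (algebraMap F E) (algebraMap L K) (fun c => (hFK c).symm)
  · intro ξ hξ
    have h1 := m.transcendental970 hξ
    rw [transcendental_iff] at h1 ⊢
    intro p hp
    have h2 : aeval (algebraMap L M ξ) (p.map (algebraMap E Ω)) = 0 := by
      have h3 := congrArg (algebraMap K M) hp
      rw [map_zero, aeval_def, Polynomial.hom_eval₂] at h3
      rw [aeval_def, eval₂_map]
      exact h3
    exact (Polynomial.map_eq_zero_iff (algebraMap E Ω).injective).1 (h1 _ h2)
  · apply IntermediateField.lift_injective K
    rw [IntermediateField.lift_adjoin, IntermediateField.lift_top]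
    change _ = IntermediateField.adjoin E (Set.range (algebraMap L M))
    congr 1
    ext x
    constructor
    · rintro ⟨_, ⟨l, rfl⟩, rfl⟩
      exact ⟨l, rfl⟩
    · rintro ⟨l, rfl⟩
      exact ⟨_, ⟨l, rfl⟩, rfl⟩

end SF
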