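import Pool.Agent.Helper970.D5.Reg
import Pool.Agent.Helper970.D5.GenFF

/-! Existence of models. -/

set_option autoImplicit false
set_option linter.all false
set_option linter.overlappingInstances false

open Module FF IntermediateField
open scoped TensorProduct

namespace SF

theorem tensor_to (F Ω L U : Type) [Field F] [Field Ω] [Algebra F Ω] [Field L] [Algebra F L]
    [Field U] [Algebra Ω U] [Algebra L U]
    (compat : ∀ c : F, algebraMap Ω U (algebraMap F Ω c) = algebraMap L U (algebraMap F L c))
    (indep : ∀ {ι : Type} (v : ι → L), LinearIndependent F v →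
        LinearIndependent Ω (fun i => algebraMap L U (v i))) :
    ∃ j : Ω ⊗[F] L →ₐ[Ω] U, Function.Injective j ∧ ∀ l : L, j (1 ⊗ₜ l) = algebraMap L U l := by
  letI : Algebra F U := ((algebraMap Ω U).comp (algebraMap F Ω)).toAlgebra
  have h1 : IsScalarTower F Ω U := IsScalarTower.of_algebraMap_eq (fun _ => rfl)
  have h2 : IsScalarTower F L U := IsScalarTower.of_algebraMap_eq (fun c => compat c)
  let j : Ω ⊗[F] L →ₐ[Ω] U := Algebra.TensorProduct.lift (Algebra.ofId Ω U)
    (IsScalarTower.toAlgHom F L U) (fun _ _ => Commute.all _ _)
  have hj : ∀ l : L, j (1 ⊗ₜ l) = algebraMap L U l := by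
    intro l
    simp [j]
  refine ⟨j, ?_, hj⟩
  rw [injective_iff_map_eq_zero]
  intro x hx
  let b := Module.Free.chooseBasis F L
  let B := Algebra.TensorProduct.basis Ω b
  have h3 := indep _ b.linearIndependent
  have h4 : Finsupp.linearCombination Ω (fun i => algebraMap L U (b i)) (B.repr x) = 0 := by
    rw [← hx]
    conv_rhs => rw [← B.linearCombination_repr x]
    rw [Finsupp.linearCombination_apply, Finsupp.linearCombination_apply, map_finsuppSum]
    apply Finsupp.sum_congr
    intro i _
    rw [map_smul, Algebra.TensorProduct.basis_apply, hj]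
  have h5 := (linearIndependent_iff.1 h3) _ h4
  exact B.repr.map_eq_zero_iff.1 h5

/-- models exist and map to every common overfield in which `Ω` and `L` are linearly disjoint -/
theorem exists_model (F Ω L : Type) [Field F] [Field Ω] [Algebra F Ω] [Field L] [Algebra F L]
    [IsFF F L] (U : Type) [Field U] [Algebra Ω U] [Algebra L U]
    (compat : ∀ c : F, algebraMap Ω U (algebraMap F Ω c) = algebraMap L U (algebraMap F L c))
    (indep : ∀ {ι : Type} (v : ι → L), LinearIndependent F v →
        LinearIndependent Ω (fun i => algebraMap L U (v i))) :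
    ∃ (M : Type) (_ : Field M) (_ : Algebra Ω M) (_ : Algebra L M) (m : Model F Ω L M) (φ : M →+* U),
      IsFF Ω M ∧ (∀ c, φ (algebraMap Ω M c) = algebraMap Ω U c) ∧
      (∀ l, φ (algebraMap L M l) = algebraMap L U l) := by
  obtain ⟨j, hj, hjL⟩ := tensor_to F Ω L U compat indep
  let W := Ω ⊗[F] L
  have hdom : IsDomain W := hj.isDomain j.toRingHom
  let M := FractionRing W
  letI : Algebra L M := ((algebraMap W M).comp
    (Algebra.TensorProduct.includeRight : L →ₐ[F] Ω ⊗[F] L).toRingHom).toAlgebra
  have hLM : ∀ l : L, algebraMap L M l = algebraMap W M (1 ⊗ₜ l) := fun l => rfl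
  have hΩM : ∀ c : Ω, algebraMap Ω M c = algebraMap W M (c ⊗ₜ 1) := by
    intro c
    rw [IsScalarTower.algebraMap_apply Ω W M]
    rfl
  let actW : (Ω ≃ₐ[F] Ω) → (W ≃+* W) := fun σ =>
    (Algebra.TensorProduct.congr σ (AlgEquiv.refl : L ≃ₐ[F] L)).toRingEquiv
  have hactW : ∀ σ c l, actW σ (c ⊗ₜ l) = (σ c) ⊗ₜ l := by
    intro σ c l
    rfl
  let actM : (Ω ≃ₐ[F] Ω) → (M ≃+* M) := fun σ => IsFractionRing.ringEquivOfRingEquiv (actW σ)
  have hactM : ∀ σ w, actM σ (algebraMap W M w) = algebraMap W M (actW σ w) := by
    intro σ w
    exact IsFractionRing.ringEquivOfRingEquiv_algebraMap _ _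
  have hext : ∀ f g : M →+* M, (∀ c, f (algebraMap Ω M c) = g (algebraMap Ω M c)) →
      (∀ l, f (algebraMap L M l) = g (algebraMap L M l)) → f = g := by
    intro f g h1 h2
    apply IsLocalization.ringHom_ext (nonZeroDivisors W)
    refine RingHom.ext (fun w => ?_)
    simp only [RingHom.comp_apply]
    induction w using TensorProduct.induction_on with
    | zero => simp
    | add x y hx hy => rw [map_add, map_add, map_add, hx, hy]
    | tmul c l =>
      have h3 : (c ⊗ₜ l : W) = (c ⊗ₜ 1) * (1 ⊗ₜ l) := by simp [W]
      rw [h3, map_mul, map_mul, map_mul, ← hΩM, ← hLM, h1, h2]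
  have hconst : ∀ σ c, actM σ (algebraMap Ω M c) = algebraMap Ω M (σ c) := by
    intro σ c
    rw [hΩM, hΩM, hactM, hactW]
  have hfixL : ∀ σ l, actM σ (algebraMap L M l) = algebraMap L M l := by
    intro σ l
    rw [hLM, hactM, hactW, map_one]
  let φ0 : M →ₐ[Ω] U := IsLocalization.liftAlgHom (M := nonZeroDivisors W) (f := j) (by
    rintro ⟨y, hy⟩
    rw [isUnit_iff_ne_zero]
    intro h
    exact nonZeroDivisors.ne_zero hy (hj (by rw [map_zero]; exact h)))
  have hφ : ∀ w : W, φ0 (algebraMap W M w) = j w := by
    intro w
    exact IsLocalization.lift_eq _ w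
  let m : Model F Ω L M :=
    { compat := by
        intro c
        rw [hΩM, hLM]
        congr 1
        rw [Algebra.algebraMap_eq_smul_one, Algebra.algebraMap_eq_smul_one,
          TensorProduct.smul_tmul]
      act :=
        { toFun := actM
          map_one' := by
            have := hext (actM 1).toRingHom (RingHom.id M)
              (fun c => by
                change actM 1 (algebraMap Ω M c) = algebraMap Ω M c
                rw [hconst]; rfl)
              (fun l => hfixL 1 l)
            ext x
            exact congrArg (fun f : M →+* M => f x) this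
          map_mul' := by
            intro σ τ
            have := hext (actM (σ * τ)).toRingHom ((actM σ).toRingHom.comp (actM τ).toRingHom)
              (fun c => by
                change actM (σ * τ) (algebraMap Ω M c) = actM σ (actM τ (algebraMap Ω M c))
                rw [hconst, hconst, hconst]; rfl)
              (fun l => by
                change actM (σ * τ) (algebraMap L M l) = actM σ (actM τ (algebraMap L M l))
                rw [hfixL, hfixL, hfixL])
            ext x
            exact congrArg (fun f : M →+* M => f x) this }
      act_const := hconst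
      act_L := hfixL
      indep := by
        intro ι v hv
        apply LinearIndependent.of_comp φ0.toLinearMap
        have h1 := indep v hv
        have h2 : (fun i => algebraMap L U (v i)) =
            (φ0.toLinearMap : M → U) ∘ (fun i => algebraMap L M (v i)) := by
          funext i
          change _ = φ0 (algebraMap L M (v i))
          rw [hLM, hφ, hjL]
        rw [← h2]
        exact h1
      frac := by
        have hspan : ∀ w : W, algebraMap W M w ∈ Submodule.span Ω (Set.range (algebraMap L M)) := by
          intro w
          induction w using TensorProduct.induction_on with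
          | zero => rw [map_zero]; exact Submodule.zero_mem _
          | add x y hx hy => rw [map_add]; exact Submodule.add_mem _ hx hy
          | tmul c l =>
            have h3 : algebraMap W M (c ⊗ₜ l) = c • algebraMap L M l := by
              have h3 : (c ⊗ₜ l : W) = (c ⊗ₜ 1) * (1 ⊗ₜ l) := by simp [W]
              rw [h3, map_mul, Algebra.smul_def, hΩM, hLM]
            rw [h3]
            exact Submodule.smul_mem _ _ (Submodule.subset_span ⟨l, rfl⟩)
        intro f
        obtain ⟨a, b, hb, rfl⟩ := IsFractionRing.div_surjective (A := W) f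
        refine ⟨_, _, hspan a, hspan b, ?_, rfl⟩
        rw [Ne, FaithfulSMul.algebraMap_eq_zero_iff]
        exact nonZeroDivisors.ne_zero hb }
  refine ⟨M, inferInstance, inferInstance, inferInstance, m, φ0.toRingHom, m.isFF, ?_, ?_⟩
  · intro c
    exact φ0.commutes c
  · intro l
    change φ0 (algebraMap L M l) = _
    rw [hLM, hφ, hjL]

end SF
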