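import Pool.Agent.Helper970.D5.Reg
import Pool.Agent.Helper970.D5.Exist

/-! The model of an absolutely irreducible polynomial. -/

set_option autoImplicit false
set_option linter.all false
set_option linter.overlappingInstances false

open Module FF Polynomial IntermediateField
open Pool.Agent.Helper740.RegExt
open scoped Polynomial.Bivariate

namespace SF

theorem adjoin_of_gen {F L : Type*} [Field F] [Field L] [Algebra F L] {ξ η : L}
    (h : Gen (algebraMap F L) ξ η) : IntermediateField.adjoin F {ξ, η} = ⊤ := by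
  have key : ∀ P : F[X][Y], ev (algebraMap F L) ξ η P ∈ IntermediateField.adjoin F {ξ, η} := by
    intro P
    have h1 : ∀ p : F[X], p.eval₂ (algebraMap F L) ξ ∈ IntermediateField.adjoin F {ξ, η} := by
      intro p
      rw [eval₂_eq_sum_range]
      apply sum_mem
      intro i _
      apply mul_mem
      · exact IntermediateField.algebraMap_mem _ _
      · apply pow_mem
        exact IntermediateField.subset_adjoin _ _ (Or.inl rfl)
    unfold ev
    rw [coe_eval₂RingHom, eval₂_eq_sum_range]
    apply sum_mem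
    intro i _
    apply mul_mem
    · rw [coe_eval₂RingHom]
      exact h1 _
    · apply pow_mem
      exact IntermediateField.subset_adjoin _ _ (Or.inr rfl)
  rw [eq_top_iff]
  intro x _
  obtain ⟨P, Q, _, rfl⟩ := h x
  exact div_mem (key P) (key Q)

theorem isFF_of_poly {F L : Type*} [Field F] [Field L] [Algebra F L] {ξ η : L}
    (hξ : Transcendental F ξ) (h : Gen (algebraMap F L) ξ η) (G : F[X][Y]) (hG0 : G ≠ 0)
    (hroot : ev (algebraMap F L) ξ η G = 0) : IsFF F L := by
  apply IsFF.of_finite hξ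
  let x : F⟮ξ⟯ := ⟨ξ, IntermediateField.mem_adjoin_simple_self F ξ⟩
  let ρ : F[X] →+* F⟮ξ⟯ := (aeval (R := F) x).toRingHom
  have hρ : Function.Injective ρ := by
    rw [injective_iff_map_eq_zero]
    intro p hp
    have h1 : aeval ξ p = 0 := by
      have h2 := congrArg (algebraMap F⟮ξ⟯ L) hp
      rw [map_zero] at h2
      rw [← h2]
      change aeval ξ p = algebraMap F⟮ξ⟯ L (aeval x p)
      rw [← aeval_algebraMap_apply]
      rfl
    exact (transcendental_iff.1 hξ) p h1
  have hη : IsAlgebraic F⟮ξ⟯ η := by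
    refine ⟨G.map ρ, (Polynomial.map_ne_zero_iff hρ).2 hG0, ?_⟩
    rw [aeval_def, eval₂_map, ← hroot]
    unfold ev
    rw [coe_eval₂RingHom]
    congr 1
    refine RingHom.ext (fun p => ?_)
    change algebraMap F⟮ξ⟯ L (aeval x p) = p.eval₂ (algebraMap F L) ξ
    rw [← aeval_algebraMap_apply]
    rfl
  have h1 : FiniteDimensional F⟮ξ⟯ (IntermediateField.adjoin F⟮ξ⟯ {η}) :=
    IntermediateField.adjoin.finiteDimensional hη.isIntegral
  have h2 : IntermediateField.adjoin F⟮ξ⟯ {η} = ⊤ := by
    apply IntermediateField.restrictScalars_injective F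
    rw [IntermediateField.adjoin_simple_adjoin_simple, adjoin_of_gen h]
    rfl
  rw [h2] at h1
  exact IntermediateField.topEquiv.toLinearEquiv.finiteDimensional

theorem exists_model_poly (F Ω : Type) [Field F] [Field Ω] [Algebra F Ω] [IsAlgClosed Ω]
    [CharZero Ω] (G : F[X][Y]) (hirr : Irreducible (bc (algebraMap F Ω) G))
    (hpos : 0 < G.natDegree) :
    ∃ (L M : Type) (_ : Field L) (_ : Field M) (_ : Algebra F L) (_ : Algebra Ω M)
      (_ : Algebra L M) (m : Model F Ω L M) (ξ η : L), IsFF F L ∧ IsFF Ω M ∧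
      Transcendental F ξ ∧ ev (algebraMap F L) ξ η G = 0 ∧ Gen (algebraMap F L) ξ η := by
  have hirrF : Irreducible G := irreducible_of_bc _ hirr
  obtain ⟨L, hL, hFL, ξ, η, hξ, hroot, hgen⟩ := exists_field hirrF hpos
  have hff : IsFF F L := isFF_of_poly hξ hgen G hirrF.ne_zero hroot
  obtain ⟨U, hU, hΩU, hLU, compat, indep⟩ :=
    regext_poly F Ω L ξ η hξ hgen G hroot hirr hpos
  obtain ⟨M, hM, hΩM, hLM, m, φ, hffM, _, _⟩ := exists_model F Ω L U compat indep
  exact ⟨L, M, hL, hM, hFL, hΩM, hLM, m, ξ, η, hff, hffM, hξ, hroot, hgen⟩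

end SF
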