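import Pool.Agent.SF.Model
import Pool.Agent.Helper740.D5.ModelM
import Pool.Agent.Helper379.SFGal

/-! Regular extensions: a common overfield in which `Ω` and `L` are linearly disjoint. -/

set_option autoImplicit false
set_option linter.all false
set_option linter.overlappingInstances false

open Module FF Polynomial IntermediateField
open Pool.Agent.Helper740.RegExt
open scoped Polynomial.Bivariate

namespace SF

/-- Linear independence by descent: a relation of minimal support has fixed coefficients. -/
theorem indep_of_fixed {E Ω M : Type*} [Field E] [Field Ω] [Algebra E Ω] [Field M] [Algebra Ω M]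
    [IsAlgClosed Ω] [CharZero Ω] (act : (Ω ≃ₐ[E] Ω) → (M →+* M))
    (hconst : ∀ σ c, act σ (algebraMap Ω M c) = algebraMap Ω M (σ c))
    {ι : Type*} (v : ι → M) (hv : ∀ σ i, act σ (v i) = v i)
    (hind : ∀ (s : Finset ι) (g : ι → E),
      ∑ i ∈ s, algebraMap Ω M (algebraMap E Ω (g i)) * v i = 0 → ∀ i ∈ s, g i = 0) :
    LinearIndependent Ω v := by
  classical
  have hE : CharZero E := (algebraMap E Ω).charZero
  have key : ∀ (s : Finset ι) (c : ι → Ω), ∑ i ∈ s, algebraMap Ω M (c i) * v i = 0 →
      ∀ i ∈ s, c i = 0 := by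
    intro s
    induction s using Finset.strongInduction with
    | H s ih =>
      intro c hc i0 hi0
      by_contra hne
      let c' : ι → Ω := fun i => c i / c i0
      have hc' : ∑ i ∈ s, algebraMap Ω M (c' i) * v i = 0 := by
        have : ∑ i ∈ s, algebraMap Ω M (c' i) * v i =
            (algebraMap Ω M (c i0))⁻¹ * ∑ i ∈ s, algebraMap Ω M (c i) * v i := by
          rw [Finset.mul_sum]
          apply Finset.sum_congr rfl
          intro i _
          simp only [c', map_div₀]
          ring
        rw [this, hc, mul_zero]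
      have hc0 : c' i0 = 1 := div_self hne
      have hfix : ∀ i ∈ s, ∀ σ : Ω ≃ₐ[E] Ω, σ (c' i) = c' i := by
        intro i hi σ
        by_cases hii : i = i0
        · rw [hii, hc0, map_one]
        · have h1 : ∑ i ∈ s, algebraMap Ω M (σ (c' i)) * v i = 0 := by
            have h2 := congrArg (act σ) hc'
            rw [map_sum, map_zero] at h2
            rw [← h2]
            apply Finset.sum_congr rfl
            intro j _
            rw [map_mul, hconst, hv]
          have h3 : ∑ i ∈ s.erase i0, algebraMap Ω M (σ (c' i) - c' i) * v i = 0 := by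
            have h4 : ∑ i ∈ s, algebraMap Ω M (σ (c' i) - c' i) * v i = 0 := by
              have h5 : ∑ i ∈ s, algebraMap Ω M (σ (c' i) - c' i) * v i =
                ∑ i ∈ s, algebraMap Ω M (σ (c' i)) * v i - ∑ i ∈ s, algebraMap Ω M (c' i) * v i := by
                rw [← Finset.sum_sub_distrib]
                apply Finset.sum_congr rfl
                intro j _
                rw [map_sub, sub_mul]
              rw [h5, h1, hc', sub_zero]
            rw [← Finset.add_sum_erase s _ hi0] at h4
            rw [hc0, map_one, sub_self, map_zero, zero_mul, zero_add] at h4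
            exact h4
          have h6 := ih (s.erase i0) (Finset.erase_ssubset hi0) _ h3 i
            (Finset.mem_erase.2 ⟨hii, hi⟩)
          exact sub_eq_zero.1 h6
      have hdesc : ∀ i, ∃ t : E, i ∈ s → algebraMap E Ω t = c' i := by
        intro i
        by_cases hi : i ∈ s
        · obtain ⟨t, ht⟩ := SF.mem_range_of_fixed (hfix i hi)
          exact ⟨t, fun _ => ht⟩
        · exact ⟨0, fun h => absurd h hi⟩
      choose t ht using hdesc
      have h7 := hind s t (by
        rw [← hc']
        apply Finset.sum_congr rfl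
        intro i hi
        rw [ht i hi]) i0 hi0
      have h8 := ht i0 hi0
      rw [h7, map_zero, hc0] at h8
      exact zero_ne_one h8
  rw [linearIndependent_iff']
  intro s c hc i hi
  apply key s c _ i hi
  rw [← hc]
  apply Finset.sum_congr rfl
  intro j _
  rw [Algebra.smul_def]

theorem gen_of_adjoin {F L : Type*} [Field F] [Field L] [Algebra F L] {ξ η : L}
    (h : IntermediateField.adjoin F {ξ, η} = ⊤) : Gen (algebraMap F L) ξ η := by
  have key : ∀ r ∈ Algebra.adjoin F ({ξ, η} : Set L), ∃ P : F[X][Y],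
      ev (algebraMap F L) ξ η P = r := by
    intro r hr
    induction hr using Algebra.adjoin_induction with
    | mem x hx =>
      rcases hx with rfl | rfl
      · exact ⟨C X, by simp [ev]⟩
      · exact ⟨X, by simp [ev]⟩
    | algebraMap c => exact ⟨C (C c), by simp [ev]⟩
    | add x y _ _ hx hy =>
      obtain ⟨P, rfl⟩ := hx
      obtain ⟨Q, rfl⟩ := hy
      exact ⟨P + Q, map_add _ _ _⟩
    | mul x y _ _ hx hy =>
      obtain ⟨P, rfl⟩ := hx
      obtain ⟨Q, rfl⟩ := hy
      exact ⟨P * Q, map_mul _ _ _⟩
  intro x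
  have hx : x ∈ IntermediateField.adjoin F {ξ, η} := by rw [h]; trivial
  rw [IntermediateField.mem_adjoin_iff_div] at hx
  obtain ⟨r, hr, s, hs, rfl⟩ := hx
  obtain ⟨P, rfl⟩ := key r hr
  obtain ⟨Q, rfl⟩ := key s hs
  by_cases hQ : ev (algebraMap F L) ξ η Q = 0
  · refine ⟨0, 1, by simp, ?_⟩
    rw [hQ]; simp
  · exact ⟨P, Q, hQ, rfl⟩

/-- `Ω` and `L = F(ξ, η)` are linearly disjoint in a common overfield if the equation of `(ξ, η)`
stays irreducible over `Ω`. -/
theorem regext_poly (F Ω L : Type) [Field F] [Field Ω] [Algebra F Ω] [Field L] [Algebra F L]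
    [IsAlgClosed Ω] [CharZero Ω] (ξ η : L) (hξ : Transcendental F ξ)
    (hgenL : Gen (algebraMap F L) ξ η) (G : F[X][Y]) (hroot : ev (algebraMap F L) ξ η G = 0)
    (hirr : Irreducible (bc (algebraMap F Ω) G)) (hpos : 0 < G.natDegree) :
    ∃ (U : Type) (_ : Field U) (_ : Algebra Ω U) (_ : Algebra L U),
      (∀ c : F, algebraMap Ω U (algebraMap F Ω c) = algebraMap L U (algebraMap F L c)) ∧
      ∀ {ι : Type} (v : ι → L), LinearIndependent F v →
        LinearIndependent Ω (fun i => algebraMap L U (v i)) := by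
  have hF : CharZero F := (algebraMap F Ω).charZero
  have hirrF : Irreducible G := irreducible_of_bc _ hirr
  have hposΩ : 0 < (bc (algebraMap F Ω) G).natDegree := by rwa [natDegree_bc]
  have hdvd : ∀ H : F[X][Y], ev (algebraMap F L) ξ η H = 0 → G ∣ H := fun H hH =>
    dvd_of_ev_eq_zero _ (fun p hp => (transcendental_iff.1 hξ) p hp) hirrF hpos hroot hH
  obtain ⟨U, hU, hAU, ξ', η', hξ', hGU, hgen⟩ := exists_field hirr hposΩ
  let g : F →+* U := (algebraMap Ω U).comp (algebraMap F Ω)
  have hGg : ev g ξ' η' G = 0 := by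
    rw [ev_bc] at hGU
    exact hGU
  have hξF : ∀ p : F[X], p.eval₂ g ξ' = 0 → p = 0 := by
    intro p hp
    have h1 : (p.map (algebraMap F Ω)).eval₂ (algebraMap Ω U) ξ' = 0 := by
      rw [eval₂_map]; exact hp
    have h2 := (transcendental_iff.1 hξ') _ h1
    exact (Polynomial.map_eq_zero_iff (algebraMap F Ω).injective).1 h2
  obtain ⟨φ, hφF, hφξ, hφη⟩ := exists_lift hgenL g ξ' η' (by
    intro H
    constructor
    · intro hH
      obtain ⟨Q, rfl⟩ := hdvd H hH
      rw [map_mul, hGg, zero_mul]
    · intro hH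
      obtain ⟨Q, rfl⟩ := dvd_of_ev_eq_zero g hξF hirrF hpos hGg hH
      rw [map_mul, hroot, zero_mul])
  have hact : ∀ σ : Ω ≃ₐ[F] Ω, ∃ ψ : U →+* U, (∀ c, ψ (algebraMap Ω U c) = algebraMap Ω U (σ c)) ∧
      ψ ξ' = ξ' ∧ ψ η' = η' := by
    intro σ
    have h0 : ((algebraMap Ω U).comp (σ : Ω →+* Ω)).comp (algebraMap F Ω) = g := by
      ext c
      simp [g]
    have h1 : ev ((algebraMap Ω U).comp (σ : Ω →+* Ω)) ξ' η' (bc (algebraMap F Ω) G) = 0 := by
      rw [ev_bc, h0, hGg]
    have hξσ : ∀ p : Polynomial Ω, p.eval₂ ((algebraMap Ω U).comp (σ : Ω →+* Ω)) ξ' = 0 → p = 0 := by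
      intro p hp
      have h1 : (p.map (σ : Ω →+* Ω)).eval₂ (algebraMap Ω U) ξ' = 0 := by
        rw [eval₂_map]; exact hp
      have h2 := (transcendental_iff.1 hξ') _ h1
      exact (Polynomial.map_eq_zero_iff (σ : Ω →+* Ω).injective).1 h2
    obtain ⟨ψ, h2, h3, h4⟩ := exists_lift hgen ((algebraMap Ω U).comp (σ : Ω →+* Ω)) ξ' η' (by
      intro H
      constructor
      · intro hH
        obtain ⟨Q, rfl⟩ := dvd_of_ev_eq_zero _ (fun p hp => (transcendental_iff.1 hξ') p hp)
          hirr hposΩ hGU hH
        rw [map_mul, h1, zero_mul]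
      · intro hH
        obtain ⟨Q, rfl⟩ := dvd_of_ev_eq_zero _ hξσ hirr hposΩ h1 hH
        rw [map_mul, hGU, zero_mul])
    exact ⟨ψ, fun c => by rw [h2]; rfl, h3, h4⟩
  choose act hact1 hact2 hact3 using hact
  letI : Algebra L U := φ.toAlgebra
  refine ⟨U, hU, hAU, inferInstance, ?_, ?_⟩
  · intro c
    exact (hφF c).symm
  · intro ι v hv
    apply indep_of_fixed (E := F) act hact1
    · intro σ i
      have h5 : (act σ).comp φ = φ := by
        apply hgenL.hom_ext
        · intro c
          rw [RingHom.comp_apply, hφF]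
          change act σ (algebraMap Ω U (algebraMap F Ω c)) = algebraMap Ω U (algebraMap F Ω c)
          rw [hact1, AlgEquiv.commutes]
        · rw [RingHom.comp_apply, hφξ, hact2]
        · rw [RingHom.comp_apply, hφη, hact3]
      exact congrArg (fun f : L →+* U => f (v i)) h5
    · intro s c hc i hi
      have h6 : φ (∑ i ∈ s, c i • v i) = 0 := by
        rw [← hc, map_sum]
        apply Finset.sum_congr rfl
        intro j _
        rw [Algebra.smul_def, map_mul, hφF]
        rfl
      have h7 : ∑ i ∈ s, c i • v i = 0 := (map_eq_zero φ).1 h6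
      exact (linearIndependent_iff'.1 hv) s c h7 i hi

theorem regext (F Ω L : Type) [Field F] [Field Ω] [Algebra F Ω] [Field L] [Algebra F L]
    [IsAlgClosed Ω] [CharZero Ω] [IsFF F L] (h : algebraicClosure F L = ⊥) :
    ∃ (U : Type) (_ : Field U) (_ : Algebra Ω U) (_ : Algebra L U),
      (∀ c : F, algebraMap Ω U (algebraMap F Ω c) = algebraMap L U (algebraMap F L c)) ∧
      ∀ {ι : Type} (v : ι → L), LinearIndependent F v →
        LinearIndependent Ω (fun i => algebraMap L U (v i)) := by
  have hF : CharZero F := (algebraMap F Ω).charZero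
  have hac : AlgClosedIn F L := by
    intro x hx
    have h1 : x ∈ algebraicClosure F L := mem_algebraicClosure_iff.2 hx
    rw [h, IntermediateField.mem_bot] at h1
    exact h1
  have hfg : ∃ s : Finset L, IntermediateField.adjoin F (s : Set L) = ⊤ := by
    have := (inferInstance : IsFF F L).ess
    exact IntermediateField.fg_top F L
  have htr : Algebra.trdeg F L ≤ 1 := (inferInstance : IsFF F L).trdeg.le
  have hne : ∃ x : L, ∀ a : F, algebraMap F L a ≠ x := by
    obtain ⟨ξ, hξ⟩ := IsFF.exists_transcendental (k := F) (K := L)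
    refine ⟨ξ, ?_⟩
    rintro a rfl
    exact hξ (isAlgebraic_algebraMap a)
  obtain ⟨ξ, η, hξ, htop, G, hG⟩ := exists_xi_eta hac hfg htr hne
  have hirr : Irreducible (bc (algebraMap F Ω) G) := hG.irreducible_bc hac hξ _
  have hpos : 0 < G.natDegree := hG.natDegree_pos hξ
  exact regext_poly F Ω L ξ η hξ (gen_of_adjoin htop) G hG.root hirr hpos

end SF
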