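import Pool.Agent.Helper970.D5.FinAC
import Pool.Agent.Helper970.D5.Reg
import Pool.Agent.Helper970.D5.GenFF
import Pool.Agent.Helper970.D5.Descent
import Pool.Agent.Helper970.D5.Base
import Pool.Agent.Helper970.D5.Exist
import Pool.Agent.Helper970.D5.ModelPoly
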